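import Pool.Agent.helper36.V3.SpecP

set_option autoImplicit false

open Complex Metric Set Filter Topology MeasureTheory MPS

noncomputable section

namespace V3S

theorem SUD : SUD_stmt := by
  intro n ra Cf D hD R hR
  have hnorm : ‖PPS.rho D.f D.b‖ = Real.exp D.lam.re := by
    rw [hD.hrho, Complex.norm_exp]
  refine ⟨hD.hn, hD.hdeg, hD.hk, hD.cyc, ?_, hD.mx, hD.hra, hR, lt_trans hD.ra0 hR,
    hD.inv R hR, ?_⟩
  · rw [hnorm]
    exact Real.one_lt_exp_iff.mpr hD.lam0
  · rw [hnorm, Real.log_exp]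
    have h1 : D.lam.re ≤ ‖D.lam‖ := Complex.re_le_norm _
    have h2 := hD.her R hR
    have h3 : 2 * Real.pi * D.lam.re ≤ 2 * Real.pi * ‖D.lam‖ :=
      mul_le_mul_of_nonneg_left h1 (by positivity)
    unfold Eb
    nlinarith

end V3S
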